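import Mathlib
import Pool.Agent.Work.MP_d3656f_al.FDefs
import Pool.Agent.Work.MP_d3656f_al.Main
import Pool.Agent.Work.MP_d3656f_al.Gen

set_option autoImplicit false

namespace Pool.Agent.Results.MP_d3656f_al.DirectProducts

open Pool.Agent.Work.MP_d3656f_al

/-- For `n ≥ 4`, `g ≥ 2`, `k ≥ 2` every homomorphism from `Aut F_n` to the extended mapping class
group of the closed surface of genus `g` has finite image on `D n k`. -/
theorem result : ∀ n g k : ℕ, 4 ≤ n → 2 ≤ g → 2 ≤ k →
    ∀ φ : MulAut (FreeGroup (Fin n)) →* Out (SurfaceGroup g), (φ '' D n k).Finite := by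
  intro n g k hn hg hk φ
  exact gen hn hk φ (main (n := n) (g := g) hn hg φ)

end Pool.Agent.Results.MP_d3656f_al.DirectProducts
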